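import Mathlib
import Pool.Agent.H5.Sturm.Opt

set_option autoImplicit false

open MeasureTheory

namespace Pool.Agent.Results.MP_68a9a2_an.SturmianBoundary

/-- The graph `G_{p,q} = {(z,w) ∈ S¹ × S¹ : w^p = z^q}` of the multi-valued map `F_{p,q}`. -/
def graph (p q : ℕ) : Set (Circle × Circle) := {g | g.2 ^ p = g.1 ^ q}

/-- `μ` is an `F_{p,q}`-invariant Borel probability measure: some Borel probability measure on the
graph has both coordinate projections equal to `μ`. -/
def Invariant [MeasurableSpace Circle] (p q : ℕ) (μ : Measure Circle) : Prop :=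
  IsProbabilityMeasure μ ∧ ∃ m : Measure (graph p q), IsProbabilityMeasure m ∧
    m.map (fun g : graph p q => g.1.1) = μ ∧ m.map (fun g : graph p q => g.1.2) = μ

/-- The barycentre of `μ`. -/
noncomputable def barycentre [MeasurableSpace Circle] (μ : Measure Circle) : ℂ :=
  ∫ z, (z : ℂ) ∂μ

/-- The set `B_{p,q}` of barycentres of invariant measures. -/
def barycentreSet [MeasurableSpace Circle] (p q : ℕ) : Set ℂ :=
  {b | ∃ μ : Measure Circle, Invariant p q μ ∧ barycentre μ = b}

/-- `μ` is Sturmian: its support lies in a closed arc of angular length `2π/q`. -/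
def IsSturmian [MeasurableSpace Circle] (q : ℕ) (μ : Measure Circle) : Prop :=
  ∃ α : ℝ, μ.support ⊆ Circle.exp '' Set.Icc α (α + 2 * Real.pi / q)

/-- For all `1 ≤ p < q`, an invariant measure has its barycentre on the boundary of `B_{p,q}` if and
only if it is Sturmian. -/
theorem result [MeasurableSpace Circle] [BorelSpace Circle] (p q : ℕ) (hp : 1 ≤ p) (hpq : p < q)
    (μ : Measure Circle) (hμ : Invariant p q μ) :
    barycentre μ ∈ frontier (barycentreSet p q) ↔ IsSturmian q μ :=
  H5.Sturm.main hp hpq hμ

end Pool.Agent.Results.MP_68a9a2_an.SturmianBoundary
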